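import Mathlib
import Pool.Agent.Helper32.TU.Final

set_option autoImplicit false

namespace Pool.Agent.Results.MP_216b57_co.FiveFourths

/-- There is a finite family of finite graphs such that the maximal number of edges of a graph on `n` vertices containing
none of them, divided by `n^(5/4)`, tends to `(1/2)^(5/4)`. -/
theorem result : ∃ (m : ℕ) (k : Fin m → ℕ) (H : (i : Fin m) → SimpleGraph (Fin (k i))),
    Filter.Tendsto
      (fun n : ℕ =>
        ((sSup {e : ℕ | ∃ G : SimpleGraph (Fin n),
            (∀ i, ¬ (H i).IsContained G) ∧ G.edgeSet.ncard = e} : ℕ) : ℝ)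
          / (n : ℝ) ^ ((5 : ℝ) / 4))
      Filter.atTop (nhds ((1 / 2 : ℝ) ^ ((5 : ℝ) / 4))) :=
  Pool.Agent.Helper32.TU.final

end Pool.Agent.Results.MP_216b57_co.FiveFourths
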